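import Pool.Agent.COSB.StmtsA

/-!
# Squad COSB (MP_0fc649_lc), row SEW: the section in words
-/

set_option autoImplicit false

namespace Pool.Agent.COSB.H88

open Pool.Agent.PAR Pool.Agent.COS

/-- the entries of a product -/
theorem mmc {n : ℕ} {R : Type} [CommRing R] (M N : Matrix (Fin n) (Fin n) R) (e f : ℕ → ℕ → ℕ)
    (h1 : ∀ i j : Fin n, ((e i j : ℕ) : R) = M i j) (h2 : ∀ i j : Fin n, ((f i j : ℕ) : R) = N i j)
    (i j : Fin n) : ((mm n e f i j : ℕ) : R) = (M * N) i j := by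
  rw [mm, Nat.cast_sum, Finset.sum_range, Matrix.mul_apply]
  refine Finset.sum_congr rfl fun l _ => ?_
  rw [Nat.cast_mul, h1, h2]

/-- SEW -/
theorem sew (h1 : RdkStmt) (h2 : WoeStmt) (h3 : WocStmt) : SewStmt := by
  intro n k l f hk a a' A hA
  obtain ⟨c1, c2, c3, c4, c5⟩ := h3 n k hk
  obtain ⟨-, e2, -, -, e5⟩ := h2 n k
  obtain ⟨-, -, -, -, r5, r6⟩ := h1 n k hk
  have key : ∀ B : Matrix (Fin n) (Fin n) (ZMod (2 ^ k)),
      wE n k (mm n (mm n (gO n (enc a'.1)) (gC n k (List.ofFn (crd k B))))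
        (gE n k (enc2 k (A⁻¹).1))) = enc2 k (up k a'.1 * B * (A⁻¹).1) := by
    intro B
    apply e5
    exact mmc _ _ _ _ (mmc _ _ _ _ (c5 a'.1) (c3 B)) (e2 _)
  have hod : ∀ B : Matrix (Fin n) (Fin n) (ZMod (2 ^ k)),
      Od l (fun c => gm f n k (enc a'.1) (enc2 k (A⁻¹).1) (List.ofFn (crd k B)) c = true) ↔
        IsUni (rd B) ∧ Od l (fun c => f (enc2 k (up k a'.1 * B * (A⁻¹).1)) c = true) := by
    intro B
    by_cases hU : IsUni (rd B)
    · have hu := (c4 B).2 hU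
      simp only [gm, hu, key, Bool.true_and, hU, true_and]
    · have hu : uniW n (List.ofFn (crd k B)) = false := by
        rw [← Bool.not_eq_true]
        exact fun h => hU ((c4 B).1 h)
      simp only [gm, hu, Bool.false_and, hU, false_and, iff_false]
      intro h
      simp [Od] at h
  ext y
  obtain ⟨B, rfl⟩ := c2 y
  rw [Set.mem_ofPred_eq, hod]
  constructor
  · rintro ⟨hU, h⟩
    obtain ⟨u, rfl⟩ := r6 B hU
    obtain ⟨A', hA'⟩ := r5 a'
    refine ⟨u, A, A', hU, hA, hA', ?_, rfl⟩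
    show Od l (fun c => f (enc2 k (A' * u * A⁻¹).1) c = true)
    have e : (A' * u * A⁻¹).1 = up k a'.1 * u.1 * (A⁻¹).1 := by
      rw [← hA']
      rfl
    rw [e]
    exact h
  · rintro ⟨u, A₁, A', hU, hA₁, hA', hW, hB⟩
    have hu : u.1 = B := c1 _ _ hB
    subst hu
    have hAA : A₁ = A := Units.ext (hA₁.trans hA.symm)
    subst hAA
    refine ⟨hU, ?_⟩
    have h : Od l (fun c => f (enc2 k (A' * u * A₁⁻¹).1) c = true) := hW
    have e : (A' * u * A₁⁻¹).1 = up k a'.1 * u.1 * (A₁⁻¹).1 := by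
      rw [← hA']
      rfl
    rw [e] at h
    exact h

end Pool.Agent.COSB.H88
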